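import Pool.Agent.Helper42.PW.Goals1

/-!
# Project PW, packet L_RT: `p`-th roots of elements close to `1`
-/

set_option autoImplicit false

namespace Pool.Agent.Helper14.PW

open Filter Topology

section

variable {H : Type} [NormedField H] [IsUltrametricDist H]

theorem norm_one_add {x : H} (hx : ‖x‖ < 1) : ‖1 + x‖ = 1 := by
  have h1 : ‖(1 : H)‖ ≠ ‖x‖ := by
    rw [norm_one]
    exact hx.ne'
  rw [IsUltrametricDist.norm_add_eq_max_of_norm_ne_norm h1, norm_one, max_eq_left hx.le]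

theorem norm_one_add_le {x : H} (hx : ‖x‖ ≤ 1) : ‖1 + x‖ ≤ 1 := by
  refine (IsUltrametricDist.norm_add_le_max _ _).trans ?_
  rw [norm_one, max_eq_left hx]

theorem bin {x : H} (hx : ‖x‖ ≤ 1) (n : ℕ) : ‖(1 + x) ^ n - 1 - n * x‖ ≤ ‖x‖ ^ 2 := by
  induction n with
  | zero => simp
  | succ n ih =>
    have e : (1 + x) ^ (n + 1) - 1 - ((n + 1 : ℕ) : H) * x =
        (1 + x) * ((1 + x) ^ n - 1 - n * x) + n * x ^ 2 := by
      push_cast
      ring
    rw [e]
    refine (IsUltrametricDist.norm_add_le_max _ _).trans (max_le ?_ ?_)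
    · rw [norm_mul]
      calc _ ≤ 1 * ‖x‖ ^ 2 := mul_le_mul (norm_one_add_le hx) ih (norm_nonneg _) zero_le_one
        _ = _ := one_mul _
    · rw [norm_mul, norm_pow]
      calc _ ≤ 1 * ‖x‖ ^ 2 := mul_le_mul_of_nonneg_right
            (IsUltrametricDist.norm_natCast_le_one H n) (by positivity)
        _ = _ := one_mul _

end

section

variable {p : ℕ} [hpF : Fact p.Prime] {H : Type} [NormedField H] [NormedAlgebra ℚ_[p] H]
  [IsUltrametricDist H]

include hpF in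
theorem r_pos : (0 : ℝ) < 1 / p := by
  have := hpF.out.pos
  positivity

include hpF in
theorem r_lt : (1 / p : ℝ) < 1 := by
  have h1 : (1 : ℝ) < p := by exact_mod_cast hpF.out.one_lt
  rw [div_lt_one (by linarith)]
  exact h1

omit [IsUltrametricDist H] in
theorem norm_p : ‖(p : H)‖ = 1 / p := by
  have h1 : (algebraMap ℚ_[p] H) (p : ℚ_[p]) = (p : H) := map_natCast _ p
  rw [← h1, norm_algebraMap', Padic.norm_p, one_div]

theorem p_ne (p : ℕ) [hpF : Fact p.Prime] (H : Type) [NormedField H] [NormedAlgebra ℚ_[p] H] :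
    (p : H) ≠ 0 := by
  intro h
  have h1 : ‖(p : H)‖ = 1 / p := norm_p
  rw [h, norm_zero] at h1
  exact (r_pos (p := p)).ne h1

/-- The new error. -/
noncomputable def nxt (p : ℕ) {H : Type} [NormedField H] (t : H) : H :=
  (1 + t) / (1 + t / p) ^ p - 1

omit [IsUltrametricDist H] in
theorem norm_div_p (t : H) : ‖t / (p : H)‖ = ‖t‖ / (1 / p) := by
  rw [norm_div, norm_p]

omit [IsUltrametricDist H] in
theorem div_le {t : H} {n : ℕ} (ht : ‖t‖ ≤ (1 / p : ℝ) ^ (n + 1)) :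
    ‖t / (p : H)‖ ≤ (1 / p : ℝ) ^ n := by
  rw [norm_div_p, div_le_iff₀ (r_pos (p := p)), ← pow_succ]
  exact ht

theorem r_pow_lt (n : ℕ) : (1 / p : ℝ) ^ (n + 1) < 1 :=
  pow_lt_one₀ (r_pos (p := p)).le (r_lt (p := p)) (by omega)

theorem nxt_le {t : H} (ht : ‖t‖ ≤ (1 / p : ℝ) ^ 3) : ‖nxt p t‖ ≤ (1 / p : ℝ) * ‖t‖ := by
  have hx2 : ‖t / (p : H)‖ ≤ (1 / p : ℝ) ^ 2 := div_le ht
  have hx1 : ‖t / (p : H)‖ < 1 := hx2.trans_lt (r_pow_lt 1)
  have h1 : ‖1 + t / (p : H)‖ = 1 := norm_one_add hx1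
  have h0 : (1 + t / (p : H)) ≠ 0 := by
    intro h
    rw [h, norm_zero] at h1
    exact zero_ne_one h1
  have hp0 : (p : H) ≠ 0 := p_ne p H
  have e : nxt p t = -((1 + t / (p : H)) ^ p - 1 - p * (t / (p : H))) / (1 + t / (p : H)) ^ p := by
    unfold nxt
    rw [eq_div_iff (pow_ne_zero _ h0), sub_mul, one_mul, div_mul_cancel₀ _ (pow_ne_zero _ h0),
      mul_div_cancel₀ _ hp0]
    ring
  rw [e, norm_div, norm_neg, norm_pow, h1, one_pow, div_one]
  refine (bin hx1.le p).trans ?_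
  have h2 : ‖t / (p : H)‖ * (1 / p) = ‖t‖ := by
    rw [norm_div_p, div_mul_cancel₀]
    exact (r_pos (p := p)).ne'
  calc ‖t / (p : H)‖ ^ 2 = ‖t / (p : H)‖ * ‖t / (p : H)‖ := by ring
    _ ≤ (1 / p : ℝ) ^ 2 * ‖t / (p : H)‖ := mul_le_mul_of_nonneg_right hx2 (norm_nonneg _)
    _ = (1 / p : ℝ) * (‖t / (p : H)‖ * (1 / p)) := by ring
    _ = (1 / p : ℝ) * ‖t‖ := by rw [h2]

/-- The errors. -/
noncomputable def tt (p : ℕ) {H : Type} [NormedField H] (u : H) : ℕ → H
  | 0 => u - 1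
  | n + 1 => nxt p (tt p u n)

/-- The approximations. -/
noncomputable def vv (p : ℕ) {H : Type} [NormedField H] (u : H) : ℕ → H
  | 0 => 1
  | n + 1 => vv p u n * (1 + tt p u n / p)

theorem tt_le {u : H} (hu : ‖u - 1‖ ≤ (1 / p : ℝ) ^ 3) (n : ℕ) :
    ‖tt p u n‖ ≤ (1 / p : ℝ) ^ (n + 3) := by
  induction n with
  | zero => simpa [tt] using hu
  | succ n ih =>
    have h1 : (1 / p : ℝ) ^ (n + 3) ≤ (1 / p : ℝ) ^ 3 :=
      pow_le_pow_of_le_one (r_pos (p := p)).le (r_lt (p := p)).le (by omega)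
    show ‖nxt p (tt p u n)‖ ≤ _
    refine (nxt_le (ih.trans h1)).trans ?_
    calc (1 / p : ℝ) * ‖tt p u n‖ ≤ (1 / p : ℝ) * (1 / p : ℝ) ^ (n + 3) :=
          mul_le_mul_of_nonneg_left ih (r_pos (p := p)).le
      _ = _ := by ring

theorem x_le {u : H} (hu : ‖u - 1‖ ≤ (1 / p : ℝ) ^ 3) (n : ℕ) :
    ‖tt p u n / (p : H)‖ ≤ (1 / p : ℝ) ^ (n + 2) := div_le (tt_le hu n)

theorem x_lt {u : H} (hu : ‖u - 1‖ ≤ (1 / p : ℝ) ^ 3) (n : ℕ) :
    ‖tt p u n / (p : H)‖ < 1 := (x_le hu n).trans_lt (r_pow_lt (n + 1))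

theorem vv_norm {u : H} (hu : ‖u - 1‖ ≤ (1 / p : ℝ) ^ 3) (n : ℕ) : ‖vv p u n‖ = 1 := by
  induction n with
  | zero => simp [vv]
  | succ n ih =>
    show ‖vv p u n * (1 + tt p u n / p)‖ = 1
    rw [norm_mul, ih, norm_one_add (x_lt hu n), one_mul]

theorem vv_step {u : H} (hu : ‖u - 1‖ ≤ (1 / p : ℝ) ^ 3) (n : ℕ) :
    ‖vv p u (n + 1) - vv p u n‖ ≤ (1 / p : ℝ) ^ (n + 2) := by
  have e : vv p u (n + 1) - vv p u n = vv p u n * (tt p u n / p) := by
    show vv p u n * (1 + tt p u n / p) - vv p u n = _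
    ring
  rw [e, norm_mul, vv_norm hu, one_mul]
  exact x_le hu n

theorem vv_one {u : H} (hu : ‖u - 1‖ ≤ (1 / p : ℝ) ^ 3) (n : ℕ) :
    ‖vv p u n - 1‖ ≤ (1 / p : ℝ) ^ 2 := by
  induction n with
  | zero =>
    simp [vv]
  | succ n ih =>
    have e : vv p u (n + 1) - 1 = (vv p u (n + 1) - vv p u n) + (vv p u n - 1) := by ring
    rw [e]
    refine (IsUltrametricDist.norm_add_le_max _ _).trans (max_le ?_ ih)
    refine (vv_step hu n).trans ?_
    exact pow_le_pow_of_le_one (r_pos (p := p)).le (r_lt (p := p)).le (by omega)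

theorem vv_eq {u : H} (hu : ‖u - 1‖ ≤ (1 / p : ℝ) ^ 3) (n : ℕ) :
    vv p u n ^ p * (1 + tt p u n) = u := by
  induction n with
  | zero =>
    show (1 : H) ^ p * (1 + (u - 1)) = u
    rw [one_pow]
    ring
  | succ n ih =>
    have h1 : ‖1 + tt p u n / (p : H)‖ = 1 := norm_one_add (x_lt hu n)
    have h0 : (1 + tt p u n / (p : H)) ≠ 0 := by
      intro h
      rw [h, norm_zero] at h1
      exact zero_ne_one h1
    show (vv p u n * (1 + tt p u n / p)) ^ p *
      (1 + ((1 + tt p u n) / (1 + tt p u n / p) ^ p - 1)) = u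
    have e : (vv p u n * (1 + tt p u n / p)) ^ p *
        (1 + ((1 + tt p u n) / (1 + tt p u n / p) ^ p - 1)) =
        vv p u n ^ p * (1 + tt p u n) := by
      rw [mul_pow, add_sub_cancel, mul_assoc, mul_div_cancel₀ _ (pow_ne_zero _ h0)]
    rw [e, ih]

end

theorem l_rt : Pool.Agent.Helper42.PW.L_RT := by
  intro p hpF H _ _ _ _
  have hr0 : (0 : ℝ) < 1 / p := r_pos
  have hr1 : (1 / p : ℝ) < 1 := r_lt
  refine ⟨?_, ?_⟩
  · intro u hu
    have hcs : CompleteSpace H := FiniteDimensional.complete ℚ_[p] H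
    have hc : CauchySeq (vv p u) := by
      refine cauchySeq_of_le_geometric (1 / p : ℝ) ((1 / p : ℝ) ^ 2) hr1 fun n => ?_
      rw [dist_comm, dist_eq_norm]
      refine (vv_step hu n).trans (le_of_eq ?_)
      ring
    obtain ⟨v, hv⟩ := cauchySeq_tendsto_of_complete hc
    have ht : Tendsto (tt p u) atTop (𝓝 0) := by
      refine squeeze_zero_norm (tt_le hu) ?_
      exact (tendsto_pow_atTop_nhds_zero_of_lt_one hr0.le hr1).comp (tendsto_add_atTop_nat 3)
    refine ⟨v, ?_, ?_⟩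
    · have h1 : Tendsto (fun n => vv p u n ^ p * (1 + tt p u n)) atTop (𝓝 (v ^ p * (1 + 0))) :=
        (hv.pow p).mul (tendsto_const_nhds.add ht)
      have h2 : (fun n => vv p u n ^ p * (1 + tt p u n)) = fun _ => u := funext (vv_eq hu)
      rw [h2, add_zero, mul_one] at h1
      exact tendsto_nhds_unique h1 tendsto_const_nhds |>.symm ▸ rfl
    · exact le_of_tendsto ((hv.sub_const 1).norm) (Eventually.of_forall (vv_one hu))
  · intro v v' h hv hv'
    have hlt : (1 / p : ℝ) ^ 2 < 1 := r_pow_lt 1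
    have e1 : v' = 1 + (v' - 1) := by ring
    have hn' : ‖v'‖ = 1 := by
      rw [e1]
      exact norm_one_add (hv'.trans_lt hlt)
    have hv0 : v' ≠ 0 := by
      intro h0
      rw [h0, norm_zero] at hn'
      exact zero_ne_one hn'
    by_contra hne
    set x : H := v / v' - 1 with hx
    have hxe : x = ((v - 1) - (v' - 1)) / v' := by
      rw [hx, sub_sub_sub_cancel_right, sub_div, div_self hv0]
    have hx2 : ‖x‖ ≤ (1 / p : ℝ) ^ 2 := by
      rw [hxe, norm_div, hn', div_one, sub_eq_add_neg]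
      refine (IsUltrametricDist.norm_add_le_max _ _).trans (max_le hv ?_)
      rw [norm_neg]
      exact hv'
    have hx0 : x ≠ 0 := by
      intro h0
      apply hne
      have h1 : v / v' = 1 := by
        rw [hx] at h0
        exact sub_eq_zero.1 h0
      exact (div_eq_one_iff_eq hv0).1 h1
    have hxn : 0 < ‖x‖ := norm_pos_iff.2 hx0
    have hw : (1 + x) ^ p = 1 := by
      rw [hx, add_sub_cancel, div_pow, h, div_self (pow_ne_zero _ hv0)]
    have h3 := bin (hx2.trans hlt.le) p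
    rw [hw, sub_self, zero_sub, norm_neg, norm_mul, norm_p (p := p), sq] at h3
    have h4 : (1 / p : ℝ) ≤ ‖x‖ := le_of_mul_le_mul_right h3 hxn
    have h5 : (1 / p : ℝ) ^ 2 < 1 / p := by
      rw [sq]
      exact mul_lt_of_lt_one_right hr0 hr1
    linarith

end Pool.Agent.Helper14.PW
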