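import Pool.Agent.Helper42.PW.Goals5
import Pool.Agent.Helper14.PW.LRT
import Pool.Agent.Helper39.PPB.BCHR
import Pool.Agent.Helper38.FD.Twist
import Pool.Agent.Helper32.RD.VAL
import Pool.Agent.Helper90.LE.CYC

/-!
# Project W, packet W_LDT: classes which are equal locally above `p`
-/

set_option autoImplicit false

namespace Pool.Agent.Helper14.PW

open Filter Topology Module NumberField IsDedekindDomain

section

variable {p : ℕ} [hpF : Fact p.Prime] {H : Type} [NormedField H] [NormedAlgebra ℚ_[p] H]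
  [IsUltrametricDist H]

theorem exists_root [CompleteSpace H] {u : H} (hu : ‖u - 1‖ ≤ (1 / p : ℝ) ^ 3) :
    ∃ v : H, v ^ p = u ∧ ‖v - 1‖ ≤ (1 / p : ℝ) ^ 2 := by
  have hr0 : (0 : ℝ) < 1 / p := r_pos
  have hr1 : (1 / p : ℝ) < 1 := r_lt
  have hc : CauchySeq (vv p u) := by
    refine cauchySeq_of_le_geometric (1 / p : ℝ) ((1 / p : ℝ) ^ 2) hr1 fun n => ?_
    rw [dist_comm, dist_eq_norm]
    refine (vv_step hu n).trans (le_of_eq ?_)
    ring
  obtain ⟨v, hv⟩ := cauchySeq_tendsto_of_complete hc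
  have ht : Tendsto (tt p u) atTop (𝓝 0) := by
    refine squeeze_zero_norm (tt_le hu) ?_
    exact (tendsto_pow_atTop_nhds_zero_of_lt_one hr0.le hr1).comp (tendsto_add_atTop_nat 3)
  refine ⟨v, ?_, ?_⟩
  · have h1 : Tendsto (fun n => vv p u n ^ p * (1 + tt p u n)) atTop (𝓝 (v ^ p * (1 + 0))) :=
      (hv.pow p).mul (tendsto_const_nhds.add ht)
    have h2 : (fun n => vv p u n ^ p * (1 + tt p u n)) = fun _ => u := funext (vv_eq hu)
    rw [h2, add_zero, mul_one] at h1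
    exact tendsto_nhds_unique h1 tendsto_const_nhds |>.symm ▸ rfl
  · exact le_of_tendsto ((hv.sub_const 1).norm) (Eventually.of_forall (vv_one hu))

theorem unique_root {v v' : H} (h : v ^ p = v' ^ p) (hv : ‖v - 1‖ ≤ (1 / p : ℝ) ^ 2)
    (hv' : ‖v' - 1‖ ≤ (1 / p : ℝ) ^ 2) : v = v' := by
  have hr0 : (0 : ℝ) < 1 / p := r_pos
  have hr1 : (1 / p : ℝ) < 1 := r_lt
  have hlt : (1 / p : ℝ) ^ 2 < 1 := r_pow_lt 1
  have e1 : v' = 1 + (v' - 1) := by ring
  have hn' : ‖v'‖ = 1 := by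
    rw [e1]
    exact norm_one_add (hv'.trans_lt hlt)
  have hv0 : v' ≠ 0 := by
    intro h0
    rw [h0, norm_zero] at hn'
    exact zero_ne_one hn'
  by_contra hne
  set x : H := v / v' - 1 with hx
  have hxe : x = ((v - 1) - (v' - 1)) / v' := by
    rw [hx, sub_sub_sub_cancel_right, sub_div, div_self hv0]
  have hx2 : ‖x‖ ≤ (1 / p : ℝ) ^ 2 := by
    rw [hxe, norm_div, hn', div_one, sub_eq_add_neg]
    refine (IsUltrametricDist.norm_add_le_max _ _).trans (max_le hv ?_)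
    rw [norm_neg]
    exact hv'
  have hx0 : x ≠ 0 := by
    intro h0
    apply hne
    have h1 : v / v' = 1 := by
      rw [hx] at h0
      exact sub_eq_zero.1 h0
    exact (div_eq_one_iff_eq hv0).1 h1
  have hxn : 0 < ‖x‖ := norm_pos_iff.2 hx0
  have hw : (1 + x) ^ p = 1 := by
    rw [hx, add_sub_cancel, div_pow, h, div_self (pow_ne_zero _ hv0)]
  have h3 := bin (hx2.trans hlt.le) p
  rw [hw, sub_self, zero_sub, norm_neg, norm_mul, norm_p (p := p), sq] at h3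
  have h4 : (1 / p : ℝ) ≤ ‖x‖ := le_of_mul_le_mul_right h3 hxn
  have h5 : (1 / p : ℝ) ^ 2 < 1 / p := by
    rw [sq]
    exact mul_lt_of_lt_one_right hr0 hr1
  linarith

theorem core [CompleteSpace H] {Ω : Type} [Field Ω] (τ : Ω →+* H) (g : Ω →+* Ω)
    (hg : ∀ x, ‖τ (g x)‖ = ‖τ x‖) {z t : Ω} (hz : IsPrimitiveRoot z p) (hgz : g z = z)
    {i i' : ℕ} (hgt : g t = z ^ i / z ^ i' * t) (ht : ‖τ t ^ p - 1‖ ≤ (1 / p : ℝ) ^ 3) :
    z ^ i = z ^ i' := by
  obtain ⟨v, hv, hv1⟩ := exists_root ht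
  have hp0 : p ≠ 0 := hpF.out.ne_zero
  have : NeZero p := ⟨hp0⟩
  have hlt : (1 / p : ℝ) ^ 2 < 1 := r_pow_lt 1
  have e1 : v = 1 + (v - 1) := by ring
  have hn : ‖v‖ = 1 := by
    rw [e1]
    exact norm_one_add (hv1.trans_lt hlt)
  have hv0 : v ≠ 0 := by
    intro h0
    rw [h0, norm_zero] at hn
    exact zero_ne_one hn
  have hζ : IsPrimitiveRoot (τ z) p := hz.map_of_injective τ.injective
  have hζ0 : τ z ≠ 0 := hζ.ne_zero hp0
  have hζn : ‖τ z‖ = 1 := by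
    have h1 : ‖τ z‖ ^ p = 1 := by rw [← norm_pow, hζ.pow_eq_one, norm_one]
    exact (pow_eq_one_iff_of_nonneg (norm_nonneg _) hp0).1 h1
  have hq : (τ t / v) ^ p = 1 := by
    rw [div_pow, hv]
    apply div_self
    rw [← hv]
    exact pow_ne_zero _ hv0
  obtain ⟨k, -, hk⟩ := hζ.eq_pow_of_pow_eq_one hq
  have hτt : τ t = τ z ^ k * v := by
    rw [hk, div_mul_cancel₀ _ hv0]
  have h1 : ‖τ (t - z ^ k)‖ = ‖v - 1‖ := by
    have e : τ (t - z ^ k) = τ z ^ k * (v - 1) := by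
      rw [map_sub, map_pow, hτt]
      ring
    rw [e, norm_mul, norm_pow, hζn, one_pow, one_mul]
  have h2 : ‖τ (g (t - z ^ k))‖ = ‖τ z ^ i / τ z ^ i' * v - 1‖ := by
    have e : τ (g (t - z ^ k)) = τ z ^ k * (τ z ^ i / τ z ^ i' * v - 1) := by
      rw [map_sub, map_pow, hgz, hgt, map_sub, map_mul, map_div₀, map_pow, map_pow, map_pow, hτt]
      ring
    rw [e, norm_mul, norm_pow, hζn, one_pow, one_mul]
  have h3 : ‖τ z ^ i / τ z ^ i' * v - 1‖ ≤ (1 / p : ℝ) ^ 2 := by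
    rw [← h2, hg, h1]
    exact hv1
  have h4 : (τ z ^ i / τ z ^ i' * v) ^ p = v ^ p := by
    rw [mul_pow, div_pow, ← pow_mul, ← pow_mul, mul_comm i, mul_comm i', pow_mul, pow_mul,
      hζ.pow_eq_one, one_pow, one_pow, div_one, one_mul]
  have h5 := unique_root h4 h3 hv1
  have h6 : τ z ^ i / τ z ^ i' = 1 := by
    have h7 : τ z ^ i / τ z ^ i' * v = 1 * v := by rw [h5, one_mul]
    exact mul_right_cancel₀ hv0 h7
  have h8 : τ z ^ i = τ z ^ i' := (div_eq_one_iff_eq (pow_ne_zero _ hζ0)).1 h6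
  apply τ.injective
  rw [map_pow, map_pow, h8]

end

theorem w_ldt : Pool.Agent.Helper42.PW.W_LDT := by
  intro p hp K K₁ _ _ _ _ _ ε hC j hj εk hεk nf cf hnf hcf a a' ha ha' hloc σ τ hτ g hg
  have hp0 : p ≠ 0 := hp.out.ne_zero
  have : NeZero p := ⟨hp0⟩
  obtain ⟨hrd, hcop, -⟩ := Pool.Agent.Helper90.LE.l_cyc p K K₁ ε hC
  have := hC.gal
  let : Algebra K₁ (AlgebraicClosure K) := j.toAlgebra
  have : IsScalarTower K K₁ (AlgebraicClosure K) :=
    IsScalarTower.of_algebraMap_eq fun x => (hj x).symm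
  have : FiniteDimensional K K₁ := Module.Finite.of_restrictScalars_finite ℚ K K₁
  have hjε : IsPrimitiveRoot (j ε) p := hC.prim.map_of_injective j.injective
  -- the powers of `g`
  set h : K₁ ≃ₐ[K] K₁ := g.restrictNormal K₁ with hh
  have hgj : ∀ x : K₁, g (j x) = j (h x) := fun x =>
    (AlgEquiv.restrictNormal_commutes g K₁ x).symm
  have hgn : ∀ (n : ℕ) (x : K₁), (g ^ n) (j x) = j ((h ^ n) x) := by
    intro n
    induction n with
    | zero => intro x; rfl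
    | succ n ih =>
      intro x
      rw [pow_succ, pow_succ, AlgEquiv.mul_apply, AlgEquiv.mul_apply, hgj, ih]
  have hnn : ∀ (n : ℕ) (x : AlgebraicClosure K), ‖τ ((g ^ n) x)‖ = ‖τ x‖ := by
    intro n
    induction n with
    | zero => intro x; rfl
    | succ n ih =>
      intro x
      rw [pow_succ, AlgEquiv.mul_apply, ih, hg]
  set r : ℕ := finrank K K₁ with hr
  have hhr : h ^ r = 1 := by
    rw [hr, ← IsGalois.card_aut_eq_finrank K K₁]
    exact pow_card_eq_one'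
  have hg1 : ∀ x : K₁, (g ^ r) (j x) = j x := by
    intro x
    rw [hgn, hhr]
    rfl
  -- roots
  have hroot : ∀ b : K₁ˣ, ∃ (s : AlgebraicClosure K) (i : ℕ), s ≠ 0 ∧ s ^ p = j (b : K₁) ∧
      (g ^ r) s = j ε ^ i * s := by
    intro b
    obtain ⟨s, hs⟩ := IsAlgClosed.exists_pow_nat_eq (j (b : K₁)) hp.out.pos
    have hb0 : j (b : K₁) ≠ 0 := (map_ne_zero j).2 b.ne_zero
    have hs0 : s ≠ 0 := by
      rintro rfl
      rw [zero_pow hp0] at hs
      exact hb0 hs.symm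
    have h1 : ((g ^ r) s / s) ^ p = 1 := by
      rw [div_pow, ← map_pow, hs, hg1]
      exact div_self hb0
    obtain ⟨i, -, hi⟩ := hjε.eq_pow_of_pow_eq_one h1
    refine ⟨s, i, hs0, hs, ?_⟩
    rw [hi, div_mul_cancel₀ _ hs0]
  obtain ⟨s, i, hs0, hs, hgs⟩ := hroot a
  obtain ⟨s', i', hs'0, hs', hgs'⟩ := hroot a'
  have hc1 : cf (Pool.Agent.Helper11.PP.clp p a) (g ^ r) = εk ^ i :=
    (hcf _ ha).2 a rfl s hs (g ^ r) hg1 i hgs
  have hc2 : cf (Pool.Agent.Helper11.PP.clp p a') (g ^ r) = εk ^ i' :=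
    (hcf _ ha').2 a' rfl s' hs' (g ^ r) hg1 i' hgs'
  -- the element `t`
  obtain ⟨y, hy⟩ := hloc
  set t : AlgebraicClosure K := s / s' * j (y : K₁) with ht
  have hu : ‖(τ.comp j) (((a / a' : K₁ˣ) : K₁) * (y : K₁) ^ p - 1)‖ ≤ (1 / p : ℝ) ^ 3 := by
    apply Pool.Agent.Helper32.RDV.norm_small_of_val
    rw [map_pow]
    exact (hy _ (Pool.Agent.Helper32.RDV.wt_p (τ.comp j))).2
  have htp : ‖τ t ^ p - 1‖ ≤ (1 / p : ℝ) ^ 3 := by
    have e : τ t ^ p - 1 = (τ.comp j) (((a / a' : K₁ˣ) : K₁) * (y : K₁) ^ p - 1) := by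
      rw [RingHom.comp_apply, ← map_pow, ht, mul_pow, div_pow, hs, hs', Units.val_div_eq_div_val]
      simp only [map_sub, map_one, map_mul, map_div₀, map_pow]
    rw [e]
    exact hu
  have hgt : (g ^ r) t = j ε ^ i / j ε ^ i' * t := by
    rw [ht, map_mul, map_div₀, hgs, hgs', hg1]
    have h0 : j ε ≠ 0 := hjε.ne_zero hp0
    field_simp
  have hii := core τ ((g ^ r : AlgebraicClosure K ≃ₐ[K] AlgebraicClosure K) :
    AlgebraicClosure K →+* AlgebraicClosure K) (hnn r) hjε (hg1 ε) hgt htp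
  have hmod := Pool.Agent.Helper39.PPB.modEq_of_pow_eq hjε hp0 hii
  have hεe : εk ^ i = εk ^ i' := Pool.Agent.Helper39.PPB.pow_eq_of_modEq hεk hmod
  -- the end
  have hpow : ∀ b : K₁ˣ, Pool.Agent.Helper11.PP.clp p b ∈ Pool.Agent.Helper11.PP.BSet p K ε →
      cf (Pool.Agent.Helper11.PP.clp p b) g ^ p = 1 := by
    intro b hb
    have h1 := hnf _ hb
    have h2 : finrank K (nf (Pool.Agent.Helper11.PP.clp p b)) = p := h1.1
    have : FiniteDimensional K (nf (Pool.Agent.Helper11.PP.clp p b)) :=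
      FiniteDimensional.of_finrank_pos (by rw [h2]; exact hp.out.pos)
    have h3 := Pool.Agent.Helper38.FD.pow_card_desc (hcf _ hb).1 g
    rwa [h2] at h3
  rw [MonoidHom.mul_apply, MonoidHom.inv_apply]
  set x := cf (Pool.Agent.Helper11.PP.clp p a) g * (cf (Pool.Agent.Helper11.PP.clp p a') g)⁻¹
    with hx
  have hxp : x ^ p = 1 := by
    rw [hx, mul_pow, inv_pow, hpow a ha, hpow a' ha', inv_one, mul_one]
  have hxr : x ^ r = 1 := by
    rw [hx, mul_pow, inv_pow, ← map_pow, ← map_pow, hc1, hc2, hεe, mul_inv_cancel]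
  have d1 := orderOf_dvd_of_pow_eq_one hxr
  have d2 := orderOf_dvd_of_pow_eq_one hxp
  have d3 := Nat.dvd_gcd d1 d2
  rw [Nat.Coprime.gcd_eq_one hcop] at d3
  exact orderOf_eq_one_iff.1 (Nat.dvd_one.1 d3)

end Pool.Agent.Helper14.PW
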